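import Mathlib
import Pool.Agent.L0h15.MZ.Basic

/-!
# Local Zariski closures of Diophantine sets: definitions and statements of the modules
-/

set_option autoImplicit false

open MvPolynomial Topology

namespace Pool.Agent.L0h15.MD

variable {K L : Type} [Field K] [NontriviallyNormedField L] (σ : K →+* L) {ι κ : Type}

/-- the polynomials vanishing at the points of `D` near `x` -/
def AI (D : Set (ι → K)) (x : ι → L) : Set (MvPolynomial ι K) :=
  {f | ∃ U ∈ 𝓝 x, ∀ y ∈ D, (fun i => σ (y i)) ∈ U → eval y f = 0}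

/-- the set of all these ideals -/
def AIs (D : Set (ι → K)) : Set (Set (MvPolynomial ι K)) :=
  {J | ∃ x : ι → L, J = AI σ D x}

/-- the common zeros over `K` -/
def zer (T : Set (MvPolynomial ι K)) : Set (ι → K) := {y | ∀ g ∈ T, eval y g = 0}

/-- the projection of the set of the common zeros over `K` -/
def proj (T : Set (MvPolynomial (ι ⊕ κ) K)) : Set (ι → K) :=
  {y | ∃ z : κ → K, ∀ g ∈ T, eval (Sum.elim y z) g = 0}

/-- generic local density for hypersurfaces -/
def GD : Prop :=
  ∀ (m : ℕ) (F : MvPolynomial (Fin m) K), Irreducible F →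
    ∃ G : MvPolynomial (Fin m) K, ¬ F ∣ G ∧
      ∀ p : Fin m → K, eval p F = 0 → eval p G ≠ 0 →
        ∀ H ∈ AI σ {y | eval y F = 0} (fun i => σ (p i)), F ∣ H

/-- generic local density for irreducible closed sets -/
def GDP : Prop :=
  ∀ (m : ℕ) (P : Ideal (MvPolynomial (Fin m) K)), P.IsPrime →
    ∃ G : MvPolynomial (Fin m) K, G ∉ P ∧
      ∀ p : Fin m → K, p ∈ zer (P : Set (MvPolynomial (Fin m) K)) → eval p G ≠ 0 →
        ∀ H ∈ AI σ (zer (P : Set (MvPolynomial (Fin m) K))) (fun i => σ (p i)), H ∈ P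

/-- finiteness for closed sets in affine spaces -/
def AF : Prop :=
  ∀ (m : ℕ) (T : Set (MvPolynomial (Fin m) K)), (AIs σ (zer T)).Finite

/-- finiteness for closed sets in projective spaces -/
def PF : Prop :=
  ∀ (κ : Type) [Finite κ] (S : Set (MvPolynomial κ K)),
    (∀ s ∈ S, ∃ d : ℕ, s.IsHomogeneous d) → (MZ.LIs σ S).Finite

/-- finiteness for Diophantine sets -/
def DF : Prop :=
  ∀ (m r : ℕ) (T : Set (MvPolynomial (Fin m ⊕ Fin r) K)), (AIs σ (proj T)).Finite

end Pool.Agent.L0h15.MD
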