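import Mathlib
import Pool.Agent.L0h15.MD.Defs

set_option autoImplicit false

open MvPolynomial Topology

namespace Pool.Agent.L0h15.MD

/-- MD1: every irreducible closed set is birational to a hypersurface -/
def S_Bir : Prop :=
  ∀ (K : Type) [Field K] [CharZero K] (m : ℕ) (P : Ideal (MvPolynomial (Fin m) K)), P.IsPrime →
    ∃ (d : ℕ) (F g : MvPolynomial (Fin (d + 1)) K) (R : Fin m → MvPolynomial (Fin (d + 1)) K)
      (φ : Fin (d + 1) → MvPolynomial (Fin m) K),
      Irreducible F ∧ ¬ F ∣ g ∧
      (∀ f : MvPolynomial (Fin (d + 1)) K, aeval φ f ∈ P ↔ F ∣ f) ∧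
      (∀ i, aeval φ g * X i - aeval φ (R i) ∈ P) ∧
      (∀ h ∈ P, ∀ q : Fin (d + 1) → K, eval q F = 0 → eval q g ≠ 0 →
        eval (fun i => eval q (R i) / eval q g) h = 0) ∧
      (∀ q : Fin (d + 1) → K, eval q F = 0 → eval q g ≠ 0 →
        ∀ j, eval (fun i => eval q (R i) / eval q g) (φ j) = q j)

/-- MD2: noetherian induction -/
def S_Ind : Prop :=
  ∀ (K L : Type) [Field K] [NontriviallyNormedField L] (σ : K →+* L), GDP σ → AF σ

/-- MD3: from hypersurfaces to irreducible closed sets (uses `S_Bir`) -/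
def S_GDP : Prop :=
  S_Bir → ∀ (K L : Type) [Field K] [CharZero K] [NontriviallyNormedField L] (σ : K →+* L),
    GD σ → GDP σ

/-- MD4: affine charts of projective closed sets -/
def S_Cone : Prop :=
  ∀ (K L : Type) [Field K] [Infinite K] [NontriviallyNormedField L] (σ : K →+* L),
    AF σ → PF σ

/-- MD5: Diophantine sets: Segre embedding and compactness of projective spaces -/
def S_Seg : Prop :=
  ∀ (K L : Type) [Field K] [Infinite K] [NontriviallyNormedField L] [ProperSpace L]
    (σ : K →+* L), PF σ → DF σ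

/-- MD6: finiteness implies generic density -/
def S_Gen : Prop :=
  ∀ (K L : Type) [Field K] [NontriviallyNormedField L] (σ : K →+* L), DF σ → GD σ

end Pool.Agent.L0h15.MD
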