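import Mathlib
import Pool.Agent.L0h15.MD.Stm

/-!
# Irreducible closed sets are birational to hypersurfaces
-/

set_option autoImplicit false

open MvPolynomial Topology nonZeroDivisors

namespace Pool.Agent.L0h15.MD

theorem bir_prim_aux (A B k E : Type) [CommRing A] [IsDomain A] [CharZero A] [CommRing B]
    [IsDomain B] [Algebra A B] [FaithfulSMul A B] [Module.Finite A B] [Field k] [Field E]
    [Algebra A k] [Algebra B E] [Algebra A E] [Algebra k E] [IsFractionRing A k]
    [IsFractionRing B E] [IsScalarTower A B E] [IsScalarTower A k E] :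
    ∃ θ : B, ∀ y : B, ∃ g : A, g ≠ 0 ∧ ∃ R : Polynomial A,
      algebraMap A B g * y = Polynomial.aeval θ R := by
  have h1 : FiniteDimensional k E := .of_isLocalization A B A⁰
  have h0 : CharZero k := charZero_of_injective_algebraMap (IsFractionRing.injective A k)
  obtain ⟨α, hα⟩ := Field.exists_primitive_element k E
  obtain ⟨⟨θ, ⟨_, ⟨a, ha, rfl⟩⟩⟩, hθ⟩ :=
    IsLocalization.surj (Algebra.algebraMapSubmonoid B A⁰) α
  simp only at hθ
  have ha0 : a ≠ 0 := nonZeroDivisors.ne_zero ha
  have hak : (algebraMap A k a) ≠ 0 := by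
    simpa using ha0
  have hθ' : algebraMap B E θ = algebraMap A k a • α := by
    rw [← hθ, Algebra.smul_def, mul_comm, ← IsScalarTower.algebraMap_apply,
      ← IsScalarTower.algebraMap_apply]
  have hαθ : α ∈ Algebra.adjoin k {algebraMap B E θ} := by
    have : α = (algebraMap A k a)⁻¹ • algebraMap B E θ := by
      rw [hθ', smul_smul, inv_mul_cancel₀ hak, one_smul]
    rw [this]
    exact Subalgebra.smul_mem _ (Algebra.self_mem_adjoin_singleton _ _) _
  have htop : ∀ z : E, z ∈ Algebra.adjoin k {algebraMap B E θ} := by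
    intro z
    have hz : z ∈ IntermediateField.adjoin k {α} := by rw [hα]; trivial
    rw [← IntermediateField.mem_toSubalgebra,
      IntermediateField.adjoin_simple_toSubalgebra_of_isAlgebraic
        (Algebra.IsAlgebraic.isAlgebraic α)] at hz
    exact Algebra.adjoin_le (by simpa using hαθ) hz
  refine ⟨θ, fun y => ?_⟩
  have hy := htop (algebraMap B E y)
  rw [Algebra.adjoin_singleton_eq_range_aeval] at hy
  obtain ⟨p, hp⟩ := hy
  obtain ⟨b, hbm, hb⟩ := IsLocalization.integerNormalization_spec A⁰ p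
  refine ⟨b, nonZeroDivisors.ne_zero hbm, IsLocalization.integerNormalization A⁰ p, ?_⟩
  apply IsFractionRing.injective B E
  have h2 : algebraMap B E (Polynomial.aeval θ (IsLocalization.integerNormalization A⁰ p)) =
      Polynomial.aeval (algebraMap B E θ)
        ((IsLocalization.integerNormalization A⁰ p).map (algebraMap A k)) := by
    rw [Polynomial.aeval_map_algebraMap, Polynomial.aeval_algebraMap_apply]
  have hp' : Polynomial.aeval (algebraMap B E θ) p = algebraMap B E y := hp
  have h3 : b • p = algebraMap A k b • p := (algebraMap_smul k b p).symm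
  rw [h2, hb, h3, map_smul, hp', map_mul, ← IsScalarTower.algebraMap_apply, Algebra.smul_def,
    ← IsScalarTower.algebraMap_apply]

theorem bir_prim (A B : Type) [CommRing A] [IsDomain A] [CharZero A] [CommRing B] [IsDomain B]
    [Algebra A B] [FaithfulSMul A B] [Module.Finite A B] :
    ∃ θ : B, ∀ y : B, ∃ g : A, g ≠ 0 ∧ ∃ R : Polynomial A,
      algebraMap A B g * y = Polynomial.aeval θ R := by
  let _ := FractionRing.liftAlgebra A (FractionRing B)
  have _ := FractionRing.isScalarTower_liftAlgebra A (FractionRing B)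
  exact bir_prim_aux A B (FractionRing A) (FractionRing B)

theorem bir_homog {K : Type} [Field K] {m n : ℕ} (g : MvPolynomial (Fin n) K)
    (R : Fin m → MvPolynomial (Fin n) K) (h : MvPolynomial (Fin m) K) :
    ∃ (N : ℕ) (h' : MvPolynomial (Fin n) K), ∀ (C : Type) [CommRing C] [Algebra K C]
      (e : MvPolynomial (Fin n) K →ₐ[K] C) (x : Fin m → C), (∀ i, e g * x i = e (R i)) →
        e h' = (e g) ^ N * aeval x h := by
  induction h using MvPolynomial.induction_on with
  | C a =>
    refine ⟨0, C a, ?_⟩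
    intro C _ _ e x _
    simp [← MvPolynomial.algebraMap_eq]
  | add p q hp hq =>
    obtain ⟨N, p', hp⟩ := hp
    obtain ⟨M, q', hq⟩ := hq
    refine ⟨N + M, p' * g ^ M + q' * g ^ N, ?_⟩
    intro C _ _ e x hx
    simp only [map_add, map_mul, map_pow, hp C e x hx, hq C e x hx]
    ring
  | mul_X p i hp =>
    obtain ⟨N, p', hp⟩ := hp
    refine ⟨N + 1, p' * R i, ?_⟩
    intro C _ _ e x hx
    simp only [map_mul, hp C e x hx, ← hx i, aeval_X]
    ring

theorem bir_abs (K B : Type) [Field K] [CharZero K] [CommRing B] [IsDomain B] [Algebra K B]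
    [Algebra.FiniteType K B] :
    ∃ (d : ℕ) (τ : Fin (d + 1) → B) (F : MvPolynomial (Fin (d + 1)) K), Irreducible F ∧
      (∀ f : MvPolynomial (Fin (d + 1)) K, aeval τ f = 0 ↔ F ∣ f) ∧
      ∀ y : B, ∃ g R : MvPolynomial (Fin (d + 1)) K, ¬ F ∣ g ∧ aeval τ g * y = aeval τ R := by
  obtain ⟨d, ψ, hψi, hψf⟩ := exists_finite_inj_algHom_of_fg K B
  let _ : Algebra (MvPolynomial (Fin d) K) B := ψ.toRingHom.toAlgebra
  have _ : IsScalarTower K (MvPolynomial (Fin d) K) B :=
    IsScalarTower.of_algebraMap_eq fun x => (ψ.commutes x).symm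
  have _ : Module.Finite (MvPolynomial (Fin d) K) B := hψf
  have _ : FaithfulSMul (MvPolynomial (Fin d) K) B :=
    (faithfulSMul_iff_algebraMap_injective _ _).mpr hψi
  obtain ⟨θ, hθ⟩ := bir_prim (MvPolynomial (Fin d) K) B
  have hint : IsIntegral (MvPolynomial (Fin d) K) θ := Algebra.IsIntegral.isIntegral θ
  let τ : Fin (d + 1) → B := Fin.cons θ fun i => ψ (X i)
  have hτ : ∀ f : MvPolynomial (Fin (d + 1)) K,
      aeval τ f = Polynomial.aeval θ (finSuccEquiv K d f) := by
    intro f
    have : (aeval τ : MvPolynomial (Fin (d + 1)) K →ₐ[K] B) =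
        ((Polynomial.aeval θ : Polynomial (MvPolynomial (Fin d) K) →ₐ[MvPolynomial (Fin d) K] B
          ).restrictScalars K).comp (finSuccEquiv K d).toAlgHom := by
      apply MvPolynomial.algHom_ext
      intro i
      refine Fin.cases ?_ (fun i => ?_) i
      · simp [τ, finSuccEquiv_X_zero]
      · simp [τ, finSuccEquiv_X_succ]
        rfl
    rw [this]
    rfl
  have hF : ∀ f : MvPolynomial (Fin (d + 1)) K,
      aeval τ f = 0 ↔ (finSuccEquiv K d).symm (minpoly (MvPolynomial (Fin d) K) θ) ∣ f := by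
    intro f
    rw [hτ, minpoly.isIntegrallyClosed_dvd_iff hint]
    constructor
    · rintro ⟨c, hc⟩
      refine ⟨(finSuccEquiv K d).symm c, ?_⟩
      apply (finSuccEquiv K d).injective
      simp [hc]
    · rintro ⟨c, hc⟩
      refine ⟨(finSuccEquiv K d) c, ?_⟩
      simp [hc]
  refine ⟨d, τ, (finSuccEquiv K d).symm (minpoly (MvPolynomial (Fin d) K) θ), ?_, hF, ?_⟩
  · rw [MulEquiv.irreducible_iff]
    exact (minpoly.prime_of_isIntegrallyClosed hint).irreducible
  · intro y
    obtain ⟨g, hg, R, hR⟩ := hθ y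
    refine ⟨(finSuccEquiv K d).symm (Polynomial.C g), (finSuccEquiv K d).symm R, ?_, ?_⟩
    · rw [← hF, hτ]
      simp only [AlgEquiv.apply_symm_apply, Polynomial.aeval_C]
      intro h0
      exact hg (hψi (by rw [map_zero]; exact h0))
    · rw [hτ, hτ]
      simpa using hR

theorem Bir : S_Bir := by
  intro K _ _ m P hP
  have _ := hP
  obtain ⟨d, τ, F, hF, hFd, hy⟩ := bir_abs K (MvPolynomial (Fin m) K ⧸ P)
  have hFp : Prime F := hF.prime
  choose g0 R0 hg0 hR0 using fun i : Fin m =>
    hy (Ideal.Quotient.mk P (X i))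
  choose φ hφ using fun j : Fin (d + 1) => Ideal.Quotient.mk_surjective (I := P) (τ j)
  let g := ∏ i, g0 i
  let R : Fin m → MvPolynomial (Fin (d + 1)) K := fun i => (∏ j ∈ Finset.univ.erase i, g0 j) * R0 i
  have hgF : ¬ F ∣ g := by
    intro h
    obtain ⟨i, _, hi⟩ := hFp.exists_mem_finset_dvd h
    exact hg0 i hi
  have hgR : ∀ i, aeval τ g * Ideal.Quotient.mk P (X i) = aeval τ (R i) := by
    intro i
    have : g = (∏ j ∈ Finset.univ.erase i, g0 j) * g0 i :=
      (Finset.prod_erase_mul _ _ (Finset.mem_univ i)).symm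
    rw [this, map_mul, mul_assoc, hR0 i]
    simp only [R, map_mul]
  have hmk : ∀ f : MvPolynomial (Fin (d + 1)) K, Ideal.Quotient.mk P (aeval φ f) = aeval τ f := by
    intro f
    have : ((Ideal.Quotient.mkₐ K P).comp (aeval φ)) = aeval τ := by
      apply MvPolynomial.algHom_ext
      intro j
      simp [hφ]
    rw [← this]
    rfl
  have hmx : ∀ f : MvPolynomial (Fin m) K,
      aeval (fun i => Ideal.Quotient.mk P (X i)) f = Ideal.Quotient.mk P f := by
    intro f
    have : aeval (fun i => Ideal.Quotient.mk P (X i)) = Ideal.Quotient.mkₐ K P := by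
      apply MvPolynomial.algHom_ext
      intro j
      simp
    rw [this]
    rfl
  have hpt : ∀ q : Fin (d + 1) → K, eval q g ≠ 0 → ∀ i,
      (aeval q : MvPolynomial (Fin (d + 1)) K →ₐ[K] K) g * (eval q (R i) / eval q g) =
        (aeval q : MvPolynomial (Fin (d + 1)) K →ₐ[K] K) (R i) := by
    intro q hq i
    rw [← MvPolynomial.coe_aeval_eq_eval] at *
    simp only [RingHom.coe_coe] at *
    field_simp
  refine ⟨d, F, g, R, φ, hF, hgF, ?_, ?_, ?_, ?_⟩
  · intro f
    rw [← Ideal.Quotient.eq_zero_iff_mem, hmk, hFd]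
  · intro i
    rw [← Ideal.Quotient.eq_zero_iff_mem, map_sub, map_mul, hmk, hmk, hgR, sub_self]
  · intro h hh q hqF hqg
    obtain ⟨N, h', H⟩ := bir_homog g R h
    have h1 := H _ (aeval τ) _ hgR
    rw [hmx, Ideal.Quotient.eq_zero_iff_mem.mpr hh, mul_zero, hFd] at h1
    obtain ⟨c, hc⟩ := h1
    have h2 := H K (aeval q) _ (hpt q hqg)
    rw [hc, map_mul] at h2
    simp only [← MvPolynomial.coe_aeval_eq_eval, RingHom.coe_coe] at *
    rw [hqF, zero_mul] at h2
    exact (mul_eq_zero.mp h2.symm).resolve_left (pow_ne_zero _ hqg)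
  · intro q hqF hqg j
    obtain ⟨N, h', H⟩ := bir_homog g R (φ j)
    have h1 := H _ (aeval τ) _ hgR
    rw [hmx, hφ] at h1
    have h3 : aeval τ (h' - g ^ N * X j) = 0 := by
      rw [map_sub, h1, map_mul, map_pow, aeval_X, sub_self]
    rw [hFd] at h3
    obtain ⟨c, hc⟩ := h3
    have h2 := H K (aeval q) _ (hpt q hqg)
    have h4 : h' = g ^ N * X j + F * c := by rw [← hc]; ring
    rw [h4, map_add, map_mul, map_mul, map_pow, aeval_X] at h2
    simp only [← MvPolynomial.coe_aeval_eq_eval, RingHom.coe_coe] at *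
    rw [hqF, zero_mul, add_zero] at h2
    exact (mul_left_cancel₀ (pow_ne_zero _ hqg) h2).symm

end Pool.Agent.L0h15.MD
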