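import Pool.Agent.L0h15.MD.Stm
import Pool.Agent.L0h15.MZ.Ver

/-!
# Affine charts of projective closed sets
-/

set_option autoImplicit false

open MvPolynomial Topology

namespace Pool.Agent.L0h15.MD

variable {K L : Type} [Field K] [NontriviallyNormedField L] {σ : K →+* L} {ι : Type}

/-- the equations of the affine cone intersected with `y i = 1` -/
def chart (S : Set (MvPolynomial ι K)) (i : ι) : Set (MvPolynomial ι K) :=
  {g | g ∈ S ∨ g = X i - 1}

theorem mem_chart {S : Set (MvPolynomial ι K)} {i : ι} {y : ι → K} :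
    y ∈ zer (chart S i) ↔ (∀ g ∈ S, eval y g = 0) ∧ y i = 1 := by
  constructor
  · intro h
    refine ⟨fun g hg => h g (Or.inl hg), ?_⟩
    have h1 := h (X i - 1) (Or.inr rfl)
    rw [map_sub, eval_X, map_one, sub_eq_zero] at h1
    exact h1
  · rintro ⟨h, hi⟩ g (hg | hg)
    · exact h g hg
    · rw [hg, map_sub, eval_X, map_one, hi, sub_self]

theorem LI_eq_chart [Infinite K] [Finite ι] {S : Set (MvPolynomial ι K)}
    (hS : ∀ s ∈ S, ∃ d : ℕ, s.IsHomogeneous d) {x : ι → L} {i : ι} (hxi : x i ≠ 0) :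
    MZ.LI σ S x = {f | ∀ d, homogeneousComponent d f ∈
      AI σ (zer (chart S i)) (fun j => (x i)⁻¹ * x j)} := by
  ext f
  constructor
  · rintro ⟨U, hU, hf⟩ d
    have hc : Continuous fun v : ι → L => fun j => x i * v j :=
      continuous_pi fun j => continuous_const.mul (continuous_apply j)
    refine ⟨(fun v : ι → L => fun j => x i * v j) ⁻¹' U, hc.continuousAt.preimage_mem_nhds ?_, ?_⟩
    · have h1 : (fun j => x i * ((x i)⁻¹ * x j)) = x := by
        funext j
        rw [← mul_assoc, mul_inv_cancel₀ hxi, one_mul]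
      rw [h1]
      exact hU
    · intro y hy hyU
      rw [mem_chart] at hy
      have h1 := hf y (fun h => by
        have h2 := hy.2
        rw [h] at h2
        exact zero_ne_one h2) hy.1 ⟨x i, hxi, hyU⟩
      exact (MZ.forall_smul_iff f y).1 h1 d
  · intro h
    choose U hU hUf using h
    have hV : (⋂ d ∈ Finset.range (f.totalDegree + 1), U d) ∈ 𝓝 (fun j => (x i)⁻¹ * x j) := by
      rw [Filter.biInter_finset_mem]
      intro d _
      exact hU d
    have hc : ContinuousAt (fun v : ι → L => fun j => (v i)⁻¹ * v j) x :=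
      continuousAt_pi.2 fun j =>
        (((continuous_apply i).continuousAt).inv₀ hxi).mul (continuous_apply j).continuousAt
    refine ⟨{v | v i ≠ 0} ∩ (fun v : ι → L => fun j => (v i)⁻¹ * v j) ⁻¹'
      (⋂ d ∈ Finset.range (f.totalDegree + 1), U d), Filter.inter_mem
      ((continuous_apply i).continuousAt.eventually_ne hxi) (hc.preimage_mem_nhds hV), ?_⟩
    rintro y - hyS ⟨c, hc0, hc1, hc2⟩
    rw [MZ.forall_smul_iff]
    intro d
    by_cases hd : d ∈ Finset.range (f.totalDegree + 1)
    · have hyi : y i ≠ 0 := by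
        intro h
        apply hc1
        simp [h]
      have h1 := hUf d ((y i)⁻¹ • y) (mem_chart.2 ⟨fun g hg => by
          obtain ⟨e, he⟩ := hS g hg
          rw [MZ.eval_smul' he, hyS g hg, mul_zero], by
          rw [Pi.smul_apply, smul_eq_mul, inv_mul_cancel₀ hyi]⟩) (by
          have h2 := Set.mem_iInter₂.1 hc2 d hd
          have h3 : (fun j => σ (((y i)⁻¹ • y) j)) = fun j => (c * σ (y i))⁻¹ * (c * σ (y j)) := by
            funext j
            have h4 : σ (y i) ≠ 0 := (map_ne_zero σ).2 hyi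
            rw [Pi.smul_apply, smul_eq_mul, map_mul, map_inv₀]
            field_simp
          rw [h3]
          exact h2)
      have h2 : y = y i • ((y i)⁻¹ • y) := by rw [smul_smul, mul_inv_cancel₀ hyi, one_smul]
      rw [h2, MZ.eval_smul' (homogeneousComponent_isHomogeneous d f), h1, mul_zero]
    · rw [homogeneousComponent_eq_zero, map_zero]
      rw [Finset.mem_range] at hd
      omega

theorem cone_fin [Infinite K] (hAF : AF σ) (m : ℕ) (S : Set (MvPolynomial (Fin m) K))
    (hS : ∀ s ∈ S, ∃ d : ℕ, s.IsHomogeneous d) : (MZ.LIs σ S).Finite := by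
  refine (Set.finite_iUnion (fun i : Fin m => (hAF m (chart S i)).image fun J =>
    {f : MvPolynomial (Fin m) K | ∀ d, homogeneousComponent d f ∈ J})).subset ?_
  rintro J ⟨x, hx0, -, rfl⟩
  obtain ⟨i, hi⟩ := Function.ne_iff.1 hx0
  rw [Set.mem_iUnion]
  exact ⟨i, _, ⟨_, rfl⟩, (LI_eq_chart hS hi).symm⟩

theorem Cone : S_Cone := by
  intro K L _ _ _ σ hAF κ _ S hS
  obtain ⟨m, ⟨e⟩⟩ := Finite.exists_equiv_fin κ
  refine MZ.LIs_rename e (cone_fin hAF m _ ?_)
  rintro _ ⟨g, hg, rfl⟩
  obtain ⟨d, hd⟩ := hS g hg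
  exact ⟨d, hd.rename_isHomogeneous⟩

end Pool.Agent.L0h15.MD
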