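import Pool.Agent.L0h15.MD.Stm

/-!
# From hypersurfaces to irreducible closed sets
-/

set_option autoImplicit false

open MvPolynomial Topology

namespace Pool.Agent.L0h15.MD

section sub

variable {K : Type} [Field K] {α β : Type}

/-- substitution of fractions with a common denominator -/
theorem exists_subst (g : MvPolynomial β K) (R : α → MvPolynomial β K) (H : MvPolynomial α K) :
    ∃ (N : ℕ) (H' : MvPolynomial β K), ∀ (A : Type) [CommRing A] [Algebra K A]
      (ψ : MvPolynomial β K →ₐ[K] A) (z : α → A), (∀ i, ψ g * z i = ψ (R i)) →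
      ψ H' = ψ g ^ N * aeval z H := by
  induction H using MvPolynomial.induction_on with
  | C a =>
    refine ⟨0, C a, fun A _ _ ψ z _ => ?_⟩
    rw [pow_zero, one_mul, algHom_C, algHom_C]
  | add p q hp hq =>
    obtain ⟨N, P, hP⟩ := hp
    obtain ⟨M, Q, hQ⟩ := hq
    refine ⟨N + M, g ^ M * P + g ^ N * Q, fun A _ _ ψ z hz => ?_⟩
    rw [map_add, map_mul, map_mul, map_pow, map_pow, hP A ψ z hz, hQ A ψ z hz, map_add]
    ring
  | mul_X p i hp =>
    obtain ⟨N, P, hP⟩ := hp
    refine ⟨N + 1, P * R i, fun A _ _ ψ z hz => ?_⟩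
    rw [map_mul, hP A ψ z hz, ← hz i, map_mul, aeval_X]
    ring

end sub

theorem GDPf : S_GDP := by
  intro hBir K L _ _ _ σ hGD m P hP
  obtain ⟨d, F, g, R, φ, hF, hFg, hker, hX, hR, -⟩ := hBir K m P hP
  obtain ⟨G₀, hG₀, hG⟩ := hGD (d + 1) F hF
  have hcomp : ∀ (p : Fin m → K) (f : MvPolynomial (Fin (d + 1)) K),
      eval p (aeval φ f) = eval (fun j => eval p (φ j)) f := by
    intro p f
    rw [← coe_aeval_eq_eval, ← coe_aeval_eq_eval]
    change (aeval p) ((aeval φ) f) = (aeval fun j => (aeval p) (φ j)) f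
    rw [← AlgHom.comp_apply, comp_aeval]
  refine ⟨aeval φ (G₀ * g), ?_, ?_⟩
  · rw [hker]
    intro h
    rcases hF.prime.dvd_or_dvd h with h | h
    · exact hG₀ h
    · exact hFg h
  · intro p hp hpG H ⟨U, hU, hH⟩
    set q : Fin (d + 1) → K := fun j => eval p (φ j) with hq
    have hFq : eval q F = 0 := by
      rw [← hcomp]
      exact hp _ ((hker F).2 dvd_rfl)
    rw [hcomp, map_mul] at hpG
    have hG₀q : eval q G₀ ≠ 0 := left_ne_zero_of_mul hpG
    have hgq : eval q g ≠ 0 := right_ne_zero_of_mul hpG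
    have hpq : ∀ i, eval q (R i) / eval q g = p i := by
      intro i
      have h1 := hp _ (hX i)
      rw [map_sub, map_mul, eval_X, hcomp, hcomp, sub_eq_zero] at h1
      rw [div_eq_iff hgq, ← h1, mul_comm]
    obtain ⟨N, H', hH'⟩ := exists_subst g R H
    -- the polynomial on the hypersurface
    have hmem : H' ∈ AI σ {y | eval y F = 0} (fun i => σ (q i)) := by
      have hc : ContinuousAt (fun v : Fin (d + 1) → L => fun i : Fin m =>
          eval₂ σ v (R i) / eval₂ σ v g) (fun i => σ (q i)) := by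
        refine continuousAt_pi.2 fun i => ?_
        refine ((MZ.continuous_eval₂ (R i)).continuousAt).div₀
          ((MZ.continuous_eval₂ g).continuousAt) ?_
        rw [MZ.eval₂_map_eq]
        exact (map_ne_zero σ).2 hgq
      refine ⟨{v | eval₂ σ v g ≠ 0} ∩ (fun v : Fin (d + 1) → L => fun i : Fin m =>
          eval₂ σ v (R i) / eval₂ σ v g) ⁻¹' U, Filter.inter_mem
        ((MZ.continuous_eval₂ g).continuousAt.eventually_ne (by
          rw [MZ.eval₂_map_eq]
          exact (map_ne_zero σ).2 hgq)) (hc.preimage_mem_nhds ?_), ?_⟩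
      · have h1 : (fun i : Fin m => eval₂ σ (fun i => σ (q i)) (R i) /
            eval₂ σ (fun i => σ (q i)) g) = fun i => σ (p i) := by
          funext i
          rw [MZ.eval₂_map_eq, MZ.eval₂_map_eq, ← map_div₀, hpq]
        rw [h1]
        exact hU
      · rintro q' hq' ⟨h1, h2⟩
        have h3 : eval q' g ≠ 0 := by
          intro h
          apply h1
          rw [MZ.eval₂_map_eq, h, map_zero]
        have h4 : (fun i : Fin m => eval₂ σ (fun i => σ (q' i)) (R i) /
            eval₂ σ (fun i => σ (q' i)) g) = fun i => σ (eval q' (R i) / eval q' g) := by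
          funext i
          rw [MZ.eval₂_map_eq, MZ.eval₂_map_eq, ← map_div₀]
        have h5 := hH (fun i => eval q' (R i) / eval q' g) (fun h hh => hR h hh q' hq' h3) (by
          rw [← h4]
          exact h2)
        have h6 := hH' K (aeval q') (fun i => eval q' (R i) / eval q' g) (fun i => by
          rw [aeval_eq_eval]
          exact mul_div_cancel₀ _ h3)
        rw [aeval_eq_eval, aeval_eq_eval, h5, mul_zero] at h6
        exact h6
    have hdvd := hG q hFq hG₀q H' hmem
    have h1 : aeval φ H' ∈ P := (hker H').2 hdvd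
    have h2 := hH' (MvPolynomial (Fin m) K ⧸ P)
      ((Ideal.Quotient.mkₐ K P).comp (aeval φ)) (fun i => Ideal.Quotient.mk P (X i)) (fun i => by
        rw [AlgHom.comp_apply, AlgHom.comp_apply, Ideal.Quotient.mkₐ_eq_mk, ← map_mul,
          Ideal.Quotient.eq]
        exact hX i)
    have h3 : aeval (fun i => Ideal.Quotient.mk P (X i)) H = Ideal.Quotient.mk P H := by
      have h4 : (aeval fun i => Ideal.Quotient.mk P (X i)) = Ideal.Quotient.mkₐ K P := by
        ext i
        simp
      rw [h4]
      rfl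
    rw [h3, AlgHom.comp_apply, AlgHom.comp_apply, Ideal.Quotient.mkₐ_eq_mk,
      Ideal.Quotient.eq_zero_iff_mem.2 h1] at h2
    have := Ideal.Quotient.isDomain P
    rcases mul_eq_zero.1 h2.symm with h6 | h6
    · exfalso
      have h7 := Ideal.Quotient.eq_zero_iff_mem.1 (eq_zero_of_pow_eq_zero h6)
      exact hFg ((hker g).1 h7)
    · exact Ideal.Quotient.eq_zero_iff_mem.1 h6

end Pool.Agent.L0h15.MD
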