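import Mathlib
import Pool.Agent.L0h15.MD.Defs

/-!
# Numerators: `a ^ N * f (b / a)`
-/

set_option autoImplicit false

open MvPolynomial Topology

namespace Pool.Agent.L0h15.MD

variable {K : Type} [Field K] {ι : Type}

/-- `a ^ N * f (b / a)` for `N` at least the degree of `f` -/
noncomputable def num {A : Type} [CommRing A] [Algebra K A] (N : ℕ) (a : A) (b : ι → A)
    (f : MvPolynomial ι K) : A :=
  ∑ e ∈ f.support, algebraMap K A (coeff e f) * (e.prod fun i k => b i ^ k) * a ^ (N - e.degree)

theorem num_map {A B : Type} [CommRing A] [Algebra K A] [CommRing B] [Algebra K B]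
    (φ : A →ₐ[K] B) (N : ℕ) (a : A) (b : ι → A) (f : MvPolynomial ι K) :
    φ (num N a b f) = num N (φ a) (fun i => φ (b i)) f := by
  simp only [num, map_sum, map_mul, AlgHom.commutes, map_pow, Finsupp.prod, map_prod]

theorem num_mul {A : Type} [CommRing A] [Algebra K A] {N : ℕ} {a : A} {b x : ι → A}
    {f : MvPolynomial ι K} (hN : f.totalDegree ≤ N) (h : ∀ i, b i = a * x i) :
    num N a b f = a ^ N * aeval x f := by
  rw [aeval_def, eval₂_eq, Finset.mul_sum]
  refine Finset.sum_congr rfl fun e he => ?_
  have h1 : e.degree ≤ N := (MvPolynomial.le_totalDegree he).trans hN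
  have h2 : (e.prod fun i k => b i ^ k) = a ^ e.degree * ∏ i ∈ e.support, x i ^ e i := by
    rw [Finsupp.prod, Finsupp.degree_apply, ← Finset.prod_pow_eq_pow_sum, ← Finset.prod_mul_distrib]
    exact Finset.prod_congr rfl fun i _ => by rw [h i, mul_pow]
  rw [h2]
  have h3 : a ^ N = a ^ e.degree * a ^ (N - e.degree) := by
    rw [← pow_add, Nat.add_sub_cancel' h1]
  rw [h3]
  ring

theorem eval_num {κ : Type} {N : ℕ} {a : MvPolynomial κ K} {b : ι → MvPolynomial κ K}
    {f : MvPolynomial ι K} (q : κ → K) :
    eval q (num N a b f) = num N (eval q a) (fun i => eval q (b i)) f := by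
  have h := num_map (aeval q : MvPolynomial κ K →ₐ[K] K) N a b f
  simpa only [aeval_eq_eval, RingHom.coe_coe] using h

/-- the value of the numerator -/
theorem eval_num_of_ne {κ : Type} {N : ℕ} {a : MvPolynomial κ K} {b : ι → MvPolynomial κ K}
    {f : MvPolynomial ι K} (hN : f.totalDegree ≤ N) {q : κ → K} (hq : eval q a ≠ 0) :
    eval q (num N a b f) = eval q a ^ N * eval (fun i => eval q (b i) / eval q a) f := by
  rw [eval_num, num_mul (x := fun i => eval q (b i) / eval q a) hN
    (fun i => (mul_div_cancel₀ _ hq).symm), aeval_eq_eval]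

theorem isHomogeneous_num {κ : Type} {N : ℕ} {a : MvPolynomial κ K} {b : ι → MvPolynomial κ K}
    {f : MvPolynomial ι K} (hN : f.totalDegree ≤ N) (ha : a.IsHomogeneous 1)
    (hb : ∀ i, (b i).IsHomogeneous 1) : (num N a b f).IsHomogeneous N := by
  refine IsHomogeneous.sum _ _ _ fun e he => ?_
  have h1 : e.degree ≤ N := (MvPolynomial.le_totalDegree he).trans hN
  have h2 : (e.prod fun i k => b i ^ k).IsHomogeneous e.degree := by
    rw [Finsupp.prod, Finsupp.degree_apply]
    refine IsHomogeneous.prod _ _ _ fun i _ => ?_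
    have := (hb i).pow (e i)
    rwa [one_mul] at this
  have h3 : (a ^ (N - e.degree)).IsHomogeneous (N - e.degree) := by
    have := ha.pow (N - e.degree)
    rwa [one_mul] at this
  have h4 := ((isHomogeneous_C κ (coeff e f)).mul h2).mul h3
  rw [zero_add, Nat.add_sub_cancel' h1] at h4
  exact h4

end Pool.Agent.L0h15.MD
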