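import Mathlib
import Pool.Agent.L0h15.MD.Stm
import Pool.Agent.L0h15.MD.Num
import Pool.Agent.L0h15.MZ.Quart
import Pool.Agent.L0h15.MZ.Ver

/-!
# Finiteness implies generic density
-/

set_option autoImplicit false

open MvPolynomial Topology

namespace Pool.Agent.L0h15.MD

variable {K L : Type} [Field K] [NontriviallyNormedField L] {σ : K →+* L}

/-- finitely many local ideals: generic density -/
theorem gd_of_finite {m : ℕ} {F : MvPolynomial (Fin m) K} (hF : Irreducible F)
    (hfin : (AIs σ {y | eval y F = 0}).Finite) :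
    ∃ G : MvPolynomial (Fin m) K, ¬ F ∣ G ∧
      ∀ p : Fin m → K, eval p F = 0 → eval p G ≠ 0 →
        ∀ H ∈ AI σ {y | eval y F = 0} (fun i => σ (p i)), F ∣ H := by
  classical
  have h1 : ∀ J : Set (MvPolynomial (Fin m) K), ∃ G : MvPolynomial (Fin m) K, ¬ F ∣ G ∧
      ((∃ H ∈ J, ¬ F ∣ H) → G ∈ J) := by
    intro J
    by_cases h : ∃ H ∈ J, ¬ F ∣ H
    · obtain ⟨H, hH, hFH⟩ := h
      exact ⟨H, hFH, fun _ => hH⟩
    · refine ⟨1, fun h1 => hF.not_isUnit (isUnit_of_dvd_one h1), fun h2 => absurd h2 h⟩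
  choose g hg1 hg2 using h1
  refine ⟨∏ J ∈ hfin.toFinset, g J, ?_, ?_⟩
  · rw [hF.prime.dvd_finsetProd_iff]
    rintro ⟨J, -, hJ⟩
    exact hg1 J hJ
  · intro p hp hG H hH
    by_contra hFH
    apply hG
    rw [map_prod]
    refine Finset.prod_eq_zero (i := AI σ {y | eval y F = 0} (fun i => σ (p i))) ?_ ?_
    · rw [Set.Finite.mem_toFinset]
      exact ⟨_, rfl⟩
    · obtain ⟨U, hU, h⟩ := hg2 _ ⟨H, hH, hFH⟩
      exact h p hp (mem_of_mem_nhds hU)

theorem S_Gen_proof : S_Gen := by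
  intro K L _ _ σ h m F hF
  refine gd_of_finite hF ?_
  have h1 := h m 0 {rename Sum.inl F}
  have h2 : proj (κ := Fin 0) {rename Sum.inl F} = {y : Fin m → K | eval y F = 0} := by
    ext y
    constructor
    · rintro ⟨z, hz⟩
      have h3 := hz _ rfl
      rw [eval_rename] at h3
      exact h3
    · intro hy
      refine ⟨Fin.elim0, ?_⟩
      rintro _ rfl
      rw [eval_rename]
      exact hy
  rwa [h2] at h1

end Pool.Agent.L0h15.MD
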