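import Mathlib
import Pool.Agent.L0h15.MD.Gen

/-!
# From projective hypersurfaces to affine hypersurfaces
-/

set_option autoImplicit false

open MvPolynomial Topology

namespace Pool.Agent.L0h15.MD

section hom

variable {K : Type} [Field K] {m : ℕ}

/-- dehomogenization -/
noncomputable def deh : MvPolynomial (Fin (m + 1)) K →ₐ[K] MvPolynomial (Fin m) K :=
  aeval (Fin.cons 1 X)

/-- homogenization in degree `N` -/
noncomputable def hom (N : ℕ) (f : MvPolynomial (Fin m) K) : MvPolynomial (Fin (m + 1)) K :=
  num N (X 0) (fun i => X i.succ) f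

theorem isHomogeneous_hom {N : ℕ} {f : MvPolynomial (Fin m) K} (hN : f.totalDegree ≤ N) :
    (hom N f).IsHomogeneous N :=
  isHomogeneous_num hN (isHomogeneous_X _ _) fun _ => isHomogeneous_X _ _

theorem deh_hom {N : ℕ} {f : MvPolynomial (Fin m) K} (hN : f.totalDegree ≤ N) :
    deh (hom N f) = f := by
  rw [hom, num_map, num_mul (x := X) hN]
  · simp [deh]
  · intro i
    simp [deh]

theorem eval_hom {N : ℕ} {f : MvPolynomial (Fin m) K} (hN : f.totalDegree ≤ N)
    {y : Fin (m + 1) → K} (hy : y 0 ≠ 0) :
    eval y (hom N f) = y 0 ^ N * eval (fun i => y i.succ / y 0) f := by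
  have h := eval_num_of_ne (q := y) (a := X 0) (b := fun i : Fin m => X i.succ) hN
    (by rwa [eval_X])
  simp only [eval_X] at h
  exact h

theorem deh_inj [Infinite K] {k : ℕ} {A : MvPolynomial (Fin (m + 1)) K} (hA : A.IsHomogeneous k)
    (h : deh A = 0) : A = 0 := by
  have h1 : X 0 * A = 0 := by
    refine MvPolynomial.funext fun y => ?_
    rw [map_mul, eval_X, map_zero]
    by_cases hy : y 0 = 0
    · rw [hy, zero_mul]
    · have h2 : eval y A = y 0 ^ k * eval (Fin.cons 1 (fun i => y i.succ / y 0)) A := by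
        rw [← MZ.eval_smul' hA]
        congr 2
        funext i
        refine Fin.cases ?_ (fun j => ?_) i
        · simp
        · simp only [Pi.smul_apply, Fin.cons_succ, smul_eq_mul]
          field_simp
      have h3 : eval (Fin.cons 1 (fun i => y i.succ / y 0)) A =
          eval (fun i => y i.succ / y 0) (deh A) := by
        rw [deh, aeval_def, algebraMap_eq, ← coe_eval₂Hom, ← RingHom.comp_apply]
        congr 1
        apply MvPolynomial.ringHom_ext
        · intro a
          simp
        · intro i
          refine Fin.cases ?_ (fun j => ?_) i <;> simp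
      rw [h2, h3, h, map_zero, mul_zero, mul_zero]
  rcases mul_eq_zero.1 h1 with h2 | h2
  · exact absurd h2 (X_ne_zero _)
  · exact h2

theorem not_X_dvd_hom {f : MvPolynomial (Fin m) K} (hf : f ≠ 0) :
    ¬ (X 0 : MvPolynomial (Fin (m + 1)) K) ∣ hom f.totalDegree f := by
  rintro ⟨B, hB⟩
  have h1 : (aeval (Fin.cons 0 X) : MvPolynomial (Fin (m + 1)) K →ₐ[K] MvPolynomial (Fin m) K)
      (hom f.totalDegree f) = 0 := by
    rw [hB, map_mul, aeval_X, Fin.cons_zero, zero_mul]
  rw [hom, num_map] at h1
  obtain ⟨e, he, hed⟩ := Finset.exists_mem_eq_sup f.support (support_nonempty.2 hf)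
    (fun s => s.sum fun _ e => e)
  have hed' : f.totalDegree = e.degree := hed
  have h2 := congrArg (coeff e) h1
  rw [num, coeff_sum, coeff_zero] at h2
  rw [Finset.sum_eq_single e] at h2
  · rw [hed', Nat.sub_self, pow_zero, mul_one] at h2
    have h3 : (algebraMap K (MvPolynomial (Fin m) K)) (coeff e f) *
        (e.prod fun i k => (aeval (Fin.cons 0 X : Fin (m + 1) → MvPolynomial (Fin m) K)) (X i.succ : MvPolynomial (Fin (m + 1)) K) ^ k) = monomial e (coeff e f) := by
      rw [monomial_eq, algebraMap_eq]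
      congr 1
      refine Finsupp.prod_congr fun i _ => ?_
      rw [aeval_X, Fin.cons_succ]
    rw [h3, coeff_monomial, if_pos rfl] at h2
    exact (mem_support_iff.1 he) h2
  · intro e' he' hne
    have h3 : (algebraMap K (MvPolynomial (Fin m) K)) (coeff e' f) *
        (e'.prod fun i k => (aeval (Fin.cons 0 X : Fin (m + 1) → MvPolynomial (Fin m) K)) (X i.succ : MvPolynomial (Fin (m + 1)) K) ^ k) = monomial e' (coeff e' f) := by
      rw [monomial_eq, algebraMap_eq]
      congr 1
      refine Finsupp.prod_congr fun i _ => ?_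
      rw [aeval_X, Fin.cons_succ]
    rw [h3, aeval_X, Fin.cons_zero]
    rcases Nat.eq_zero_or_pos (f.totalDegree - e'.degree) with h4 | h4
    · rw [h4, pow_zero, mul_one, coeff_monomial, if_neg hne]
    · rw [zero_pow h4.ne', mul_zero, coeff_zero]
  · intro h3
    exact absurd he h3

theorem irreducible_hom [Infinite K] {f : MvPolynomial (Fin m) K} (hf : Irreducible f) :
    Irreducible (hom f.totalDegree f) := by
  have key : ∀ A B : MvPolynomial (Fin (m + 1)) K, hom f.totalDegree f = A * B →
      IsUnit (deh A) → IsUnit A := by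
    intro A B hAB hu
    have h0 : A * B ≠ 0 := by
      intro h0
      apply not_X_dvd_hom hf.ne_zero
      rw [hAB, h0]
      exact dvd_zero _
    have h1 : (A * B).IsHomogeneous f.totalDegree := hAB ▸ isHomogeneous_hom le_rfl
    obtain ⟨k, l, hk, -, -⟩ := MZ.isHomogeneous_of_mul h0 h1
    obtain ⟨c, hc0, hc⟩ := MvPolynomial.isUnit_iff_eq_C_of_isReduced.1 hu
    have h2 : A = C c * X 0 ^ k := by
      rw [← sub_eq_zero]
      refine deh_inj (k := k) (hk.sub ?_) ?_
      · have h3 := (isHomogeneous_C (Fin (m + 1)) c).mul ((isHomogeneous_X K (0 : Fin (m + 1))).pow k)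
        rwa [zero_add, one_mul] at h3
      · rw [map_sub, map_mul, map_pow, hc]
        simp [deh]
    rcases Nat.eq_zero_or_pos k with h3 | h3
    · rw [h2, h3, pow_zero, mul_one]
      exact hc0.map C
    · exfalso
      apply not_X_dvd_hom hf.ne_zero
      rw [hAB, h2]
      exact Dvd.dvd.mul_right (Dvd.dvd.mul_left (dvd_pow_self _ h3.ne') _) _
  constructor
  · intro hu
    apply hf.not_isUnit
    have := hu.map deh
    rwa [deh_hom le_rfl] at this
  · intro A B hAB
    have h1 : f = deh A * deh B := by
      rw [← map_mul, ← hAB, deh_hom le_rfl]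
    rcases hf.isUnit_or_isUnit h1 with h2 | h2
    · exact Or.inl (key A B hAB h2)
    · exact Or.inr (key B A (by rw [hAB, mul_comm]) h2)

end hom

section local_ideals

variable {K L : Type} [Field K] [NontriviallyNormedField L] {σ : K →+* L} {m : ℕ}

theorem AI_eq_of_hom (F : MvPolynomial (Fin m) K) (x : Fin m → L) :
    AI σ {y | eval y F = 0} x = {f | X 0 * hom f.totalDegree f ∈
      MZ.LI σ {hom F.totalDegree F} (Fin.cons 1 x : Fin (m + 1) → L)} := by
  ext f
  constructor
  · rintro ⟨U, hU, hf⟩
    have hc : ContinuousAt (fun v : Fin (m + 1) → L => fun i : Fin m => v i.succ / v 0)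
        (Fin.cons 1 x) := by
      refine continuousAt_pi.2 fun i => ?_
      exact (continuous_apply _).continuousAt.div (continuous_apply _).continuousAt (by simp)
    have hc1 : (fun v : Fin (m + 1) → L => fun i : Fin m => v i.succ / v 0)
        (Fin.cons 1 x) = x := by
      funext i
      simp
    have hU' : U ∈ 𝓝 ((fun v : Fin (m + 1) → L => fun i : Fin m => v i.succ / v 0)
        (Fin.cons 1 x)) := by rwa [hc1]
    have h0 : ∀ᶠ v : Fin (m + 1) → L in 𝓝 (Fin.cons 1 x), v 0 ≠ 0 :=
      (continuous_apply 0).continuousAt.eventually_ne (by simp)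
    refine ⟨_, Filter.inter_mem (hc.preimage_mem_nhds hU') h0, ?_⟩
    rintro y - hy ⟨c, hc0, hcU, hcy⟩ t
    have hy0 : y 0 ≠ 0 := by
      intro h
      apply hcy
      simp [h]
    have h1 := hy _ rfl
    rw [eval_hom le_rfl hy0] at h1
    have h2 : eval (fun i => y i.succ / y 0) F = 0 :=
      (mul_eq_zero.1 h1).resolve_left (pow_ne_zero _ hy0)
    have h3 : eval (fun i => y i.succ / y 0) f = 0 := by
      refine hf _ h2 ?_
      have h4 : (fun i : Fin m => σ (y i.succ / y 0)) =
          fun i : Fin m => c * σ (y i.succ) / (c * σ (y 0)) := by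
        funext i
        rw [map_div₀, mul_div_mul_left _ _ hc0]
      rw [h4]
      exact hcU
    rw [map_mul, eval_X]
    by_cases ht : t = 0
    · rw [ht, zero_smul, Pi.zero_apply, zero_mul]
    · have h5 : (t • y) 0 ≠ 0 := by
        rw [Pi.smul_apply, smul_eq_mul]
        exact mul_ne_zero ht hy0
      rw [eval_hom le_rfl h5]
      have h6 : (fun i : Fin m => (t • y) i.succ / (t • y) 0) = fun i => y i.succ / y 0 := by
        funext i
        rw [Pi.smul_apply, Pi.smul_apply, smul_eq_mul, smul_eq_mul, mul_div_mul_left _ _ ht]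
      rw [h6, h3, mul_zero, mul_zero]
  · rintro ⟨U, hU, hf⟩
    have hc : Continuous (fun v : Fin m → L => (Fin.cons 1 v : Fin (m + 1) → L)) :=
      continuous_pi fun i => by
        refine Fin.cases ?_ (fun j => ?_) i
        · exact continuous_const
        · exact continuous_apply j
    refine ⟨_, hc.continuousAt.preimage_mem_nhds hU, ?_⟩
    intro y hy hyU
    have h0 : (Fin.cons 1 y : Fin (m + 1) → K) 0 ≠ 0 := by simp
    have h1 : ∀ g : MvPolynomial (Fin m) K,
        eval (Fin.cons 1 y : Fin (m + 1) → K) (hom g.totalDegree g) = eval y g := by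
      intro g
      rw [eval_hom le_rfl h0]
      simp
    have h2 := hf (Fin.cons 1 y) (fun h => h0 (by rw [h]; rfl)) (by
      rintro _ rfl
      rw [h1]
      exact hy) ⟨1, one_ne_zero, by
        have h3 : (fun i : Fin (m + 1) => (1 : L) * σ ((Fin.cons 1 y : Fin (m + 1) → K) i)) =
            Fin.cons 1 (fun i => σ (y i)) := by
          funext i
          refine Fin.cases ?_ (fun j => ?_) i <;> simp
        rw [h3]
        exact hyU⟩ 1
    rw [one_smul, map_mul, eval_X, h1, Fin.cons_zero, one_mul] at h2
    exact h2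

theorem AIs_finite_of_hom {F : MvPolynomial (Fin m) K}
    (hfin : (MZ.LIs σ {hom F.totalDegree F}).Finite) : (AIs σ {y | eval y F = 0}).Finite := by
  have h1 := MZ.LI_finite_all (σ := σ) (S := {hom F.totalDegree F}) (by
    rintro _ rfl
    exact ⟨_, isHomogeneous_hom le_rfl⟩) hfin
  refine MZ.finite_of_map (fun J => {f | X 0 * hom f.totalDegree f ∈ J}) h1 ?_
  rintro _ ⟨x, rfl⟩
  refine ⟨_, ⟨Fin.cons 1 x, fun h => ?_, rfl⟩, (AI_eq_of_hom F x).symm⟩
  have := congrFun h 0
  simp at this

/-- finiteness for irreducible projective hypersurfaces implies generic density -/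
theorem gd_of_hypersurfaces [Infinite K]
    (h : ∀ (n : ℕ) (F : MvPolynomial (Fin (n + 1)) K) (d : ℕ), F.IsHomogeneous d →
      Irreducible F → (MZ.LIs σ {F}).Finite) : GD σ := by
  intro m F hF
  exact gd_of_finite hF (AIs_finite_of_hom
    (h m _ _ (isHomogeneous_hom le_rfl) (irreducible_hom hF)))

end local_ideals

end Pool.Agent.L0h15.MD
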