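import Mathlib
import Pool.Agent.L0h15.MD.Stm

/-!
# Noetherian induction (module MD2)
-/

set_option autoImplicit false

open MvPolynomial Topology

namespace Pool.Agent.L0h15.MD

variable {K L : Type} [Field K] [NontriviallyNormedField L] {σ : K →+* L} {m : ℕ}

theorem zer_span (T : Set (MvPolynomial (Fin m) K)) :
    zer T = zer ((Ideal.span T : Ideal (MvPolynomial (Fin m) K)) :
      Set (MvPolynomial (Fin m) K)) := by
  ext y
  constructor
  · intro h g hg
    have h1 : Ideal.span T ≤ RingHom.ker (eval y : MvPolynomial (Fin m) K →+* K) := by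
      rw [Ideal.span_le]
      intro t ht
      exact h t ht
    exact h1 hg
  · intro h g hg
    exact h g (Ideal.subset_span hg)

theorem zer_anti {I J : Ideal (MvPolynomial (Fin m) K)} (h : I ≤ J) :
    zer (J : Set (MvPolynomial (Fin m) K)) ⊆ zer (I : Set (MvPolynomial (Fin m) K)) :=
  fun _ hy g hg => hy g (h hg)

theorem zer_sup {I : Ideal (MvPolynomial (Fin m) K)} {a : MvPolynomial (Fin m) K}
    {y : Fin m → K} (hy : y ∈ zer (I : Set (MvPolynomial (Fin m) K))) (ha : eval y a = 0) :
    y ∈ zer ((I ⊔ Ideal.span {a} : Ideal (MvPolynomial (Fin m) K)) :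
      Set (MvPolynomial (Fin m) K)) := by
  have h1 : I ⊔ Ideal.span {a} ≤ RingHom.ker (eval y : MvPolynomial (Fin m) K →+* K) := by
    refine sup_le (fun g hg => hy g hg) ?_
    rw [Ideal.span_le, Set.singleton_subset_iff]
    exact ha
  intro g hg
  exact h1 hg

theorem lt_sup {I : Ideal (MvPolynomial (Fin m) K)} {a : MvPolynomial (Fin m) K} (ha : a ∉ I) :
    I < I ⊔ Ideal.span {a} := by
  refine lt_of_le_of_ne le_sup_left ?_
  intro h
  apply ha
  rw [h]
  exact Ideal.mem_sup_right (Ideal.subset_span rfl)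

theorem ind_step (hG : GDP σ) (I : Ideal (MvPolynomial (Fin m) K))
    (ih : ∀ J : Ideal (MvPolynomial (Fin m) K), J > I →
        (AIs σ (zer (J : Set (MvPolynomial (Fin m) K)))).Finite) :
    (AIs σ (zer (I : Set (MvPolynomial (Fin m) K)))).Finite := by
  by_cases hp : I.IsPrime
  · obtain ⟨G, hGI, hG2⟩ := hG m I hp
    refine ((ih _ (lt_sup hGI)).union (Set.finite_singleton
      (I : Set (MvPolynomial (Fin m) K)))).subset ?_
    rintro J ⟨x, rfl⟩
    by_cases h : ∃ U ∈ 𝓝 x, ∀ y ∈ zer (I : Set (MvPolynomial (Fin m) K)),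
        (fun i => σ (y i)) ∈ U → eval y G = 0
    · left
      refine ⟨x, ?_⟩
      obtain ⟨U, hU, hUG⟩ := h
      ext f
      constructor
      · rintro ⟨V, hV, hf⟩
        exact ⟨V, hV, fun y hy hyV => hf y (zer_anti le_sup_left hy) hyV⟩
      · rintro ⟨V, hV, hf⟩
        refine ⟨U ∩ V, Filter.inter_mem hU hV, fun y hy hyV => ?_⟩
        exact hf y (zer_sup hy (hUG y hy hyV.1)) hyV.2
    · right
      rw [Set.mem_singleton_iff]
      ext f
      constructor
      · rintro ⟨U, hU, hf⟩
        obtain ⟨V, hVU, hVo, hxV⟩ := mem_nhds_iff.1 hU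
        push Not at h
        obtain ⟨y, hy, hyV, hyG⟩ := h V (hVo.mem_nhds hxV)
        exact hG2 y hy hyG f ⟨V, hVo.mem_nhds hyV, fun z hz hzV => hf z hz (hVU hzV)⟩
      · intro hf
        exact ⟨Set.univ, Filter.univ_mem, fun y hy _ => hy f hf⟩
  · rcases Ideal.not_isPrime_iff.1 hp with h | ⟨a, ha, b, hb, hab⟩
    · refine (Set.finite_singleton (Set.univ : Set (MvPolynomial (Fin m) K))).subset ?_
      rintro J ⟨x, rfl⟩
      rw [Set.mem_singleton_iff]
      refine Set.eq_univ_of_forall fun f => ⟨Set.univ, Filter.univ_mem, fun y hy _ => ?_⟩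
      have h1 := hy 1 (by rw [h]; trivial)
      rw [map_one] at h1
      exact absurd h1 one_ne_zero
    · refine ((ih _ (lt_sup ha)).image2 (fun A B => A ∩ B) (ih _ (lt_sup hb))).subset ?_
      rintro J ⟨x, rfl⟩
      refine ⟨_, ⟨x, rfl⟩, _, ⟨x, rfl⟩, ?_⟩
      ext f
      constructor
      · rintro ⟨⟨U, hU, hf⟩, ⟨V, hV, hg⟩⟩
        refine ⟨U ∩ V, Filter.inter_mem hU hV, fun y hy hyV => ?_⟩
        have h1 : eval y a * eval y b = 0 := by
          rw [← map_mul]
          exact hy _ hab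
        rcases mul_eq_zero.1 h1 with h1 | h1
        · exact hf y (zer_sup hy h1) hyV.1
        · exact hg y (zer_sup hy h1) hyV.2
      · rintro ⟨U, hU, hf⟩
        exact ⟨⟨U, hU, fun y hy hyV => hf y (zer_anti le_sup_left hy) hyV⟩,
          ⟨U, hU, fun y hy hyV => hf y (zer_anti le_sup_left hy) hyV⟩⟩


/-- Noetherian induction. -/
theorem ind : S_Ind := by
  intro K L _ _ σ hG m T
  have key : ∀ I : Ideal (MvPolynomial (Fin m) K),
      (∀ J : Ideal (MvPolynomial (Fin m) K), J > I →
        (AIs σ (zer (J : Set (MvPolynomial (Fin m) K)))).Finite) →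
      (AIs σ (zer (I : Set (MvPolynomial (Fin m) K)))).Finite := by
    intro I ih
    exact ind_step hG I ih
  rw [zer_span T]
  exact IsNoetherian.induction
    (P := fun I : Ideal (MvPolynomial (Fin m) K) =>
      (AIs σ (zer (I : Set (MvPolynomial (Fin m) K)))).Finite) key _

end Pool.Agent.L0h15.MD
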