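import Pool.Agent.L0h15.MD.Stm

/-!
# Diophantine sets: the Segre embedding and the compactness of the projective spaces
-/

set_option autoImplicit false

open MvPolynomial Topology

namespace Pool.Agent.L0h15.MD

section hom

variable {K : Type} [Field K] {α κ : Type}

/-- homogenization -/
theorem exists_hom (ρ : α → κ) (o : κ) (g : MvPolynomial α K) :
    ∃ (N : ℕ) (G : MvPolynomial κ K), G.IsHomogeneous N ∧
      ∀ (c : K) (y : α → K) (z : κ → K), z o = c → (∀ a, z (ρ a) = c * y a) →
        eval z G = c ^ N * eval y g := by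
  induction g using MvPolynomial.induction_on with
  | C a =>
    refine ⟨0, C a, isHomogeneous_C _ _, fun c y z _ _ => ?_⟩
    rw [pow_zero, one_mul, eval_C, eval_C]
  | add p q hp hq =>
    obtain ⟨N, P, hP, hP'⟩ := hp
    obtain ⟨M, Q, hQ, hQ'⟩ := hq
    refine ⟨N + M, X o ^ M * P + X o ^ N * Q, IsHomogeneous.add ?_ ?_, fun c y z hz hz' => ?_⟩
    · have h := ((isHomogeneous_X K o).pow M).mul hP
      rw [one_mul, add_comm] at h
      exact h
    · have h := ((isHomogeneous_X K o).pow N).mul hQ
      rw [one_mul] at h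
      exact h
    · rw [map_add, map_mul, map_mul, map_pow, map_pow, eval_X, hP' c y z hz hz',
        hQ' c y z hz hz', hz, map_add]
      ring
  | mul_X p i hp =>
    obtain ⟨N, P, hP, hP'⟩ := hp
    refine ⟨N + 1, P * X (ρ i), hP.mul (isHomogeneous_X _ _), fun c y z hz hz' => ?_⟩
    rw [map_mul, eval_X, hP' c y z hz hz', hz', map_mul, eval_X]
    ring

/-- the degree -/
noncomputable def hN (ρ : α → κ) (o : κ) (g : MvPolynomial α K) : ℕ := (exists_hom ρ o g).choose

/-- the homogeneous polynomial -/
noncomputable def hG (ρ : α → κ) (o : κ) (g : MvPolynomial α K) : MvPolynomial κ K :=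
  (exists_hom ρ o g).choose_spec.choose

theorem hG_hom (ρ : α → κ) (o : κ) (g : MvPolynomial α K) :
    (hG ρ o g).IsHomogeneous (hN ρ o g) := (exists_hom ρ o g).choose_spec.choose_spec.1

theorem hG_eval (ρ : α → κ) (o : κ) (g : MvPolynomial α K) (y : α → K) (z : κ → K)
    (h : ∀ a, z (ρ a) = z o * y a) : eval z (hG ρ o g) = z o ^ hN ρ o g * eval y g :=
  (exists_hom ρ o g).choose_spec.choose_spec.2 (z o) y z rfl h

end hom

section segre

variable {α β : Type}

/-- the tensor product of two vectors -/
def tp {A : Type} [Mul A] (u : Option α → A) (v : Option β → A) : Option α × Option β → A :=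
  fun p => u p.1 * v p.2

/-- the point with first coordinate `1` -/
def ex {A : Type} [One A] (x : α → A) : Option α → A := fun a => a.elim 1 x

/-- the first variables -/
def r1 (i : α) : Option α × Option β := (some i, none)

/-- all the variables -/
def r2 (i : α ⊕ β) : Option α × Option β := i.elim (fun i => (some i, none)) fun j => (none, some j)

variable {K : Type} [Field K]

/-- the equations of the closure of the set in the product of the projective spaces -/
def seg (T : Set (MvPolynomial (α ⊕ β) K)) : Set (MvPolynomial (Option α × Option β) K) :=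
  {h | (∃ a b c d, h = X (a, b) * X (c, d) - X (a, d) * X (c, b)) ∨
    ∃ g ∈ T, h = hG r2 (none, none) g}

theorem seg_hom (T : Set (MvPolynomial (α ⊕ β) K)) : ∀ s ∈ seg T, ∃ d : ℕ, s.IsHomogeneous d := by
  rintro s (⟨a, b, c, d, rfl⟩ | ⟨g, -, rfl⟩)
  · exact ⟨1 + 1, ((isHomogeneous_X _ _).mul (isHomogeneous_X _ _)).sub
      ((isHomogeneous_X _ _).mul (isHomogeneous_X _ _))⟩
  · exact ⟨_, hG_hom _ _ _⟩

/-- the polynomial on the product -/
noncomputable def fh (f : MvPolynomial α K) : MvPolynomial (Option α × Option β) K :=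
  X (none, none) * hG r1 (none, none) f

theorem fh_eval (f : MvPolynomial α K) (u : α → K) (v : Option β → K) :
    eval (tp (ex u) v) (fh f) = v none * (v none ^ hN (κ := Option α × Option β) r1 (none, none) f * eval u f) := by
  have h0 : tp (ex u) v (none, none) = v none := by simp [tp, ex]
  rw [fh, map_mul, eval_X, hG_eval r1 (none, none) f u (tp (ex u) v) ?_, h0]
  intro a
  rw [h0]
  simp [tp, ex, r1, mul_comm]

theorem g_eval (g : MvPolynomial (α ⊕ β) K) (u : α → K) (v : Option β → K) (z : β → K)
    (hz : ∀ j, v (some j) = v none * z j) :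
    eval (tp (ex u) v) (hG r2 (none, none) g) =
      v none ^ hN (κ := Option α × Option β) r2 (none, none) g * eval (Sum.elim u z) g := by
  have h0 : tp (ex u) v (none, none) = v none := by simp [tp, ex]
  rw [hG_eval r2 (none, none) g (Sum.elim u z) (tp (ex u) v) ?_, h0]
  rintro (a | j)
  · rw [h0]
    simp [tp, ex, r2, mul_comm]
  · rw [h0]
    simp [tp, ex, r2, hz]

/-- the points of the set -/
theorem seg_mem {T : Set (MvPolynomial (α ⊕ β) K)} {u : α → K} {z : β → K}
    (h : ∀ g ∈ T, eval (Sum.elim u z) g = 0) : ∀ s ∈ seg T, eval (tp (ex u) (ex z)) s = 0 := by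
  rintro s (⟨a, b, c, d, rfl⟩ | ⟨g, hg, rfl⟩)
  · simp only [map_sub, map_mul, eval_X, tp]
    ring
  · rw [g_eval g u (ex z) z (fun j => by simp [ex]), h g hg, mul_zero]

/-- points of the set of rank one -/
theorem seg_rank {T : Set (MvPolynomial (α ⊕ β) K)} {w : Option α × Option β → K}
    (hw : ∀ s ∈ seg T, eval w s = 0) {b : Option β} (hb : w (none, b) ≠ 0) :
    w = tp (ex fun i => w (some i, b) / w (none, b)) fun c => w (none, c) := by
  funext ⟨a, c⟩
  have h1 := hw _ (Or.inl ⟨a, c, none, b, rfl⟩)
  simp only [map_sub, map_mul, eval_X, sub_eq_zero] at h1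
  cases a with
  | none => simp [tp, ex]
  | some i =>
    simp only [tp, ex, Option.elim_some]
    rw [div_mul_eq_mul_div, eq_div_iff hb]
    exact h1

end segre

section compact

variable {K L : Type} [Field K] [NontriviallyNormedField L] (σ : K →+* L) {α β : Type}

theorem map_tp (u : Option α → K) (v : Option β → K) (c : L) :
    (fun p => c * σ (tp u v p)) = tp (fun a => σ (u a)) fun b => c * σ (v b) := by
  funext p
  simp only [tp, map_mul]
  ring

theorem map_ex (y : α → K) : (fun a => σ (ex y a)) = ex fun i => σ (y i) := by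
  funext a
  cases a <;> simp [ex]

variable {σ}

/-- the comparison of the ideals -/
theorem mem_AI_iff [ProperSpace L] [Finite α] [Finite β]
    (T : Set (MvPolynomial (α ⊕ β) K)) (x : α → L) (f : MvPolynomial α K) :
    f ∈ AI σ (proj T) x ↔ ∀ v : Option β → L, v ≠ 0 →
      (fh f : MvPolynomial (Option α × Option β) K) ∈ MZ.LI σ (seg T) (tp (ex x) v) := by
  have := Fintype.ofFinite β
  constructor
  · rintro ⟨U, hU, hf⟩ v hv
    obtain ⟨b, hb⟩ := Function.ne_iff.1 hv
    have hb' : v b ≠ 0 := hb
    have h0 : tp (ex x) v (none, b) = v b := by simp [tp, ex]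
    have hc : ContinuousAt (fun w : Option α × Option β → L => fun i : α =>
        w (some i, b) / w (none, b)) (tp (ex x) v) := by
      refine continuousAt_pi.2 fun i => ?_
      refine ((continuous_apply (some i, b)).continuousAt).div₀
        ((continuous_apply (none, b)).continuousAt) ?_
      rw [h0]
      exact hb'
    refine ⟨{w | w (none, b) ≠ 0} ∩ (fun w : Option α × Option β → L => fun i : α =>
        w (some i, b) / w (none, b)) ⁻¹' U, Filter.inter_mem
      ((continuous_apply (none, b)).continuousAt.eventually_ne (by rw [h0]; exact hb'))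
      (hc.preimage_mem_nhds ?_), ?_⟩
    · have h1 : (fun i : α => tp (ex x) v (some i, b) / tp (ex x) v (none, b)) = x := by
        funext i
        rw [h0]
        simp only [tp, ex, Option.elim_some]
        rw [mul_div_assoc, div_self hb', mul_one]
      rw [h1]
      exact hU
    · rintro w - hwS ⟨c, hc0, hc1, hc2⟩ t
      have hwb : w (none, b) ≠ 0 := by
        intro h
        apply hc1
        simp [h]
      have h1 := seg_rank hwS hwb
      set u : α → K := fun i => w (some i, b) / w (none, b) with hu
      set v' : Option β → K := fun c => w (none, c) with hv'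
      have h2 : t • w = tp (ex u) (t • v') := by
        conv_lhs => rw [h1]
        funext p
        simp only [tp, Pi.smul_apply, smul_eq_mul]
        ring
      rw [h2, fh_eval]
      by_cases hv0 : v' none = 0
      · rw [Pi.smul_apply, hv0, smul_zero, zero_mul]
      · have h3 : ∀ j, v' (some j) = v' none * (v' (some j) / v' none) := fun j =>
          (mul_div_cancel₀ _ hv0).symm
        have hD : u ∈ proj T := by
          refine ⟨fun j => v' (some j) / v' none, fun g hg => ?_⟩
          have h4 := hwS _ (Or.inr ⟨g, hg, rfl⟩)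
          rw [h1, g_eval g u v' _ h3] at h4
          exact (mul_eq_zero.1 h4).resolve_left (pow_ne_zero _ hv0)
        have h5 := hf u hD (by
          have h6 : (fun i => σ (u i)) = fun i => c * σ (w (some i, b)) / (c * σ (w (none, b))) := by
            funext i
            rw [hu, map_div₀, mul_div_mul_left _ _ hc0]
          rw [h6]
          exact hc2)
        rw [h5, mul_zero, mul_zero]
  · intro h
    obtain ⟨π, hπ⟩ := NormedField.exists_one_lt_norm L
    -- the good open sets
    set W : Set (Option α × Option β → L) := ⋃₀ {V | IsOpen V ∧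
      ∀ w : Option α × Option β → K, w ≠ 0 → (∀ g ∈ seg T, eval w g = 0) →
      (∃ c : L, c ≠ 0 ∧ (fun p => c * σ (w p)) ∈ V) →
      ∀ t : K, eval (t • w) (fh f : MvPolynomial (Option α × Option β) K) = 0} with hW
    have hWo : IsOpen W := isOpen_sUnion fun V hV => hV.1
    set Q : Set (Option β → L) := {v | 1 ≤ ‖v‖ ∧ ‖v‖ ≤ ‖π‖} with hQ
    have hQc : IsCompact Q := by
      refine (isCompact_closedBall (0 : Option β → L) ‖π‖).of_isClosed_subset ?_ ?_
      · exact (isClosed_le continuous_const continuous_norm).inter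
          (isClosed_le continuous_norm continuous_const)
      · rintro z ⟨-, hz⟩
        simpa using hz
    have hcont : Continuous fun p : (α → L) × (Option β → L) => tp (ex p.1) p.2 := by
      refine continuous_pi fun q => ?_
      refine Continuous.mul ?_ ((continuous_apply q.2).comp continuous_snd)
      obtain ⟨a, b⟩ := q
      cases a with
      | none => exact continuous_const
      | some i => exact (continuous_apply i).comp continuous_fst
    obtain ⟨U, V, hU1, -, hU2, hV, hUV⟩ := generalized_tube_lemma (isCompact_singleton (x := x))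
      hQc (hWo.preimage hcont) (by
        rintro ⟨u, v⟩ ⟨hu, hv1, hv2⟩
        rw [Set.mem_singleton_iff] at hu
        subst hu
        have hv0 : v ≠ 0 := by
          rintro rfl
          rw [norm_zero] at hv1
          linarith
        obtain ⟨V, hV, hV'⟩ := h v hv0
        obtain ⟨V₁, hV1, hV2, hV3⟩ := mem_nhds_iff.1 hV
        refine ⟨V₁, ⟨hV2, ?_⟩, hV3⟩
        rintro w hw0 hwS ⟨c, hc0, hcV⟩
        exact hV' w hw0 hwS ⟨c, hc0, hV1 hcV⟩)
    refine ⟨U, hU1.mem_nhds (hU2 rfl), ?_⟩
    rintro y ⟨z, hz⟩ hyU
    have hv0 : (fun b => σ (ex z b)) ≠ 0 := by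
      intro h0
      have h1 := congrFun h0 none
      simp [ex] at h1
    obtain ⟨n, hn0, hn1, hn2, -⟩ := rescale_to_shell_zpow hπ (lt_trans one_pos hπ) hv0
    rw [div_self (ne_of_gt (lt_trans one_pos hπ))] at hn2
    have h1 := hUV (Set.mk_mem_prod hyU (hV ⟨hn2, hn1.le⟩))
    obtain ⟨V₁, ⟨-, hV2⟩, hV3⟩ := h1
    have h2 := hV2 (tp (ex y) (ex z)) (by
      intro h0
      have h1 := congrFun h0 (none, none)
      simp [tp, ex] at h1) (seg_mem hz) ⟨π ^ n, hn0, by
        rw [map_tp, map_ex]
        exact hV3⟩ 1
    rw [one_smul, fh_eval] at h2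
    simpa [ex] using h2

end compact

theorem Seg : S_Seg := by
  intro K L _ _ _ _ σ hPF m r T
  have hfin := MZ.LI_finite_all (σ := σ) (seg_hom T) (hPF (Option (Fin m) × Option (Fin r)) _ (seg_hom T))
  refine (hfin.finite_subsets.image fun G : Set (Set (MvPolynomial (Option (Fin m) × Option (Fin r)) K)) =>
    {f : MvPolynomial (Fin m) K | ∀ J ∈ G, fh f ∈ J}).subset ?_
  rintro J ⟨x, rfl⟩
  refine ⟨{J | ∃ v : Option (Fin r) → L, v ≠ 0 ∧ J = MZ.LI σ (seg T) (tp (ex x) v)}, ?_, ?_⟩
  · rintro _ ⟨v, hv, rfl⟩
    refine ⟨_, ?_, rfl⟩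
    intro h0
    apply hv
    funext b
    have h1 := congrFun h0 (none, b)
    simpa [tp, ex] using h1
  · ext f
    rw [mem_AI_iff]
    constructor
    · intro h v hv
      exact h _ ⟨v, hv, rfl⟩
    · rintro h _ ⟨v, hv, rfl⟩
      exact h v hv

end Pool.Agent.L0h15.MD
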